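import Mathlib
import Pool.Agent.Lib.MP_eec16c_co.Bohr

namespace Pool.Agent.Results.MP_eec16c_co.Asymptotic

/-- The threshold `T` equals `p + 1 - τ` with `2 p - 1 ≤ 3 ^ τ < 24 τ p`. -/
theorem result (p : ℕ) (hp : p.Prime) (hodd : Odd p) (h3 : p % 3 = 2) :
    ∃ T τ : ℕ, T + τ = p + 1 ∧
      IsLeast {m : ℕ | ∀ M : Finset (ZMod p), M.card = m →
        ∃ A ⊆ M, (∀ x ∈ A, ∀ y ∈ A, x + y ∉ A) ∧ A.card = (p + 1) / 3} T ∧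
      2 * p ≤ 3 ^ τ + 1 ∧ 3 ^ τ < 24 * τ * p := by
  have : Fact p.Prime := ⟨hp⟩
  obtain ⟨k, hk⟩ : ∃ k, p = 3 * k + 2 := ⟨p / 3, by omega⟩
  have hk1 : 1 ≤ k := by obtain ⟨r, hr⟩ := hodd; omega
  obtain ⟨T, τ, h1, h2, h4, h5, -⟩ := Pool.Agent.Lib.MP_eec16c_co.threshold hk hk1
  rw [show (p + 1) / 3 = k + 1 by omega]
  exact ⟨T, τ, h1, h2, h4, h5⟩

end Pool.Agent.Results.MP_eec16c_co.Asymptotic
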