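import Mathlib
import Pool.Agent.Lib.MP_eec16c_co.Bohr

namespace Pool.Agent.Results.MP_eec16c_co.Exact

/-- For a prime `p = (3 ^ d + 1) / 2` the threshold is exactly `p + 1 - d`. -/
theorem result (p d : ℕ) (hp : p.Prime) (hodd : Odd p) (hd : 2 * p = 3 ^ d + 1) :
    IsLeast {m : ℕ | ∀ M : Finset (ZMod p), M.card = m →
      ∃ A ⊆ M, (∀ x ∈ A, ∀ y ∈ A, x + y ∉ A) ∧ A.card = (p + 1) / 3} (p + 1 - d) := by
  have : Fact p.Prime := ⟨hp⟩
  have h2 := hp.two_le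
  obtain ⟨e, rfl⟩ : ∃ e, d = e + 1 := by
    rcases d with _ | e
    · omega
    · exact ⟨e, rfl⟩
  obtain ⟨k, hk⟩ : ∃ k, p = 3 * k + 2 := ⟨p / 3, by rw [pow_succ] at hd; omega⟩
  have hk1 : 1 ≤ k := by obtain ⟨r, hr⟩ := hodd; omega
  obtain ⟨T, τ, h1, h3, -, -, h5⟩ := Pool.Agent.Lib.MP_eec16c_co.threshold hk hk1
  have h6 := h5 _ hd
  rw [show (p + 1) / 3 = k + 1 by omega, show p + 1 - (e + 1) = T by omega]
  exact h3

end Pool.Agent.Results.MP_eec16c_co.Exact
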